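import Mathlib
import Pool.Agent.H.MP_8d2225_pr.Disc

namespace Pool.Agent.Results.MP_ec2323_pr.NoCutoff

open Filter Topology Finset Matrix Pool.Agent.H.MP_8d2225_pr

section defs
variable {V : Type} [Fintype V] [DecidableEq V]

/-- heat kernel `exp (t (P - I))` of the rate-one walk with jump matrix `P` -/
noncomputable def heat (P : Matrix V V ℝ) (t : ℝ) (x y : V) : ℝ :=
  ∑' k : ℕ, Real.exp (-t) * t ^ k / k.factorial * (P ^ k) x y

/-- stationary law `deg x / (2 |E|)` -/
noncomputable def stat (G : SimpleGraph V) (x : V) : ℝ :=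
  ((G.neighborSet x).ncard : ℝ) / (2 * G.edgeSet.ncard)

/-- total variation distance to stationarity at time `t` from `x` -/
noncomputable def dist (G : SimpleGraph V) (x : V) (t : ℝ) : ℝ :=
  (1 / 2) * ∑ y, |heat (gw 0 G) t x y - stat G y|

/-- mixing time from `x` -/
noncomputable def tau (G : SimpleGraph V) (x : V) : ℝ := sInf {t | 0 ≤ t ∧ dist G x t ≤ 1 / 4}

open Classical in
/-- stationary mass of a set of vertices -/
noncomputable def mass (G : SimpleGraph V) (p : V → Prop) : ℝ := ∑ x with p x, stat G x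

/-- `m` is a median of `tau G x`, `x` stationary -/
def IsMedian (G : SimpleGraph V) (m : ℝ) : Prop :=
  1 / 2 ≤ mass G (fun x => tau G x ≤ m) ∧ 1 / 2 ≤ mass G (fun x => m ≤ tau G x)

end defs

lemma pois (t a : ℝ) :
    HasSum (fun k : ℕ => Real.exp (-t) * t ^ k / k.factorial * a ^ k) (Real.exp (-((1 - a) * t))) := by
  have := (NormedSpace.expSeries_div_hasSum_exp (t * a)).mul_left (Real.exp (-t))
  rw [← Real.exp_eq_exp_ℝ, ← Real.exp_add] at this
  rw [show -((1 - a) * t) = -t + t * a by ring]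
  refine (congrArg (HasSum · _) (funext fun k => ?_)).mp this
  rw [mul_pow]; ring

variable {Γ : Type} [AddCommGroup Γ] [Fintype Γ] [DecidableEq Γ] {L T : ℕ} {S : Finset Γ}

lemma stat_eq (h : Good L T S) (x : Γ) : stat (cay h) x = 1 / (Fintype.card Γ : ℝ) := by
  classical
  have h1 := (cay h).sum_degrees_eq_twice_card_edges
  have h2 : ∀ v, (cay h).degree v = S.card := fun v => by
    rw [← cay_deg h v, ← SimpleGraph.card_neighborFinset_eq_degree, SimpleGraph.neighborFinset_def,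
      Set.ncard_eq_toFinset_card']
  have h3 : (cay h).edgeSet.ncard = (cay h).edgeFinset.card := by
    rw [SimpleGraph.edgeFinset, Set.ncard_eq_toFinset_card']
  simp only [h2, sum_const, card_univ, smul_eq_mul] at h1
  have h4 : (2 * ((cay h).edgeFinset.card : ℝ)) = Fintype.card Γ * S.card := by exact_mod_cast h1.symm
  have h0 : (S.card : ℝ) ≠ 0 := by exact_mod_cast h.ne.card_pos.ne'
  rw [stat, cay_deg, h3, h4]
  field_simp

lemma W_nonneg (x y : Γ) : 0 ≤ W 0 S x y := by
  simp only [W]; split_ifs <;> positivity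

lemma P_nonneg (k : ℕ) (x y : Γ) : 0 ≤ (W 0 S ^ k) x y :=
  (pow_le_pow W_nonneg (fun _ _ => le_rfl) k x y).1

lemma P_le (h : Good L T S) (k : ℕ) (x y : Γ) : (W 0 S ^ k) x y ≤ 1 := by
  rw [← h.rowp 0 k x]
  exact single_le_sum (fun y _ => P_nonneg k x y) (mem_univ y)

lemma hs_heat (h : Good L T S) {t : ℝ} (ht : 0 ≤ t) (x y : Γ) :
    HasSum (fun k : ℕ => Real.exp (-t) * t ^ k / k.factorial * (W 0 S ^ k) x y) (heat (W 0 S) t x y) := by
  refine (Summable.of_nonneg_of_le (fun k => ?_) (fun k => ?_) (pois t 1).summable).hasSum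
  · have := P_nonneg (S := S) k x y
    positivity
  · rw [one_pow]; gcongr; exact P_le h k x y

lemma one_sum (t : ℝ) : HasSum (fun k : ℕ => Real.exp (-t) * t ^ k / k.factorial) 1 := by
  simpa using pois t 1

lemma up (h : Good L T S) {t : ℝ} (ht : 0 ≤ t) (x : Γ) :
    dist (cay h) x t ≤ Real.exp (-(1 / (11 * L) * t)) + Real.exp (-((1 - 1 / (9 * L)) * t)) := by
  have h1 := (pois t (1 - 1 / (11 * L))).add (pois t (1 / (9 * L)))
  rw [sub_sub_cancel] at h1
  have h2 : ∀ y, HasSum (fun k : ℕ => Real.exp (-t) * t ^ k / k.factorial *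
      ((W 0 S ^ k) x y - 1 / (Fintype.card Γ : ℝ))) (heat (W 0 S) t x y - 1 / (Fintype.card Γ : ℝ)) := by
    intro y
    simpa [mul_sub] using (hs_heat h ht x y).sub ((one_sum t).mul_right (1 / (Fintype.card Γ : ℝ)))
  have h3 := (hasSum_sum fun y (_ : y ∈ univ) => (h2 y).summable.abs.hasSum).mul_left (1 / 2)
  refine le_trans ?_ (hasSum_le (fun k => ?_) h3 h1)
  · simp only [dist, gw_cay, stat_eq]
    gcongr with y
    rw [← (h2 y).tsum_eq]
    exact norm_tsum_le_tsum_norm (h2 y).summable.norm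
  · have hw : 0 ≤ Real.exp (-t) * t ^ k / k.factorial := by positivity
    have := mul_le_mul_of_nonneg_left (h.upper 0 le_rfl zero_le_one k x) hw
    simp only [abs_mul, abs_of_nonneg hw, ← mul_sum]
    simp only [sub_zero, zero_add] at this
    linarith

lemma lo (h : Good L T S) (hL : 2 ≤ L) {t : ℝ} (ht : 0 ≤ t) (x : Γ) :
    Real.exp (-(1 / (9 * L) * t)) - Real.exp t / 2 ^ T - 1 / 100 ≤ dist (cay h) x t := by
  have hL' : (2 : ℝ) ≤ L := by exact_mod_cast hL
  obtain ⟨A, hA, hA'⟩ := h.lower x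
  have h1 := (pois t (1 - 1 / (9 * L))).sub ((pois t 2).div_const (2 ^ T))
  rw [sub_sub_cancel, show -((1 - 2) * t) = t by ring] at h1
  have h2 := hasSum_sum fun y (_ : y ∈ A) => hs_heat h ht x y
  have c1 : 1 / (9 * L : ℝ) ≤ 1 := by rw [div_le_one (by positivity)]; linarith
  have c0 : 0 < 1 / (9 * L : ℝ) := by positivity
  have h3 := hasSum_le (fun k => ?_) h1 h2
  · have h4 : ∑ y, heat (W 0 S) t x y = 1 := by
      have := hasSum_sum fun y (_ : y ∈ univ) => hs_heat h ht x y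
      simp only [← mul_sum, h.rowp, mul_one] at this
      exact this.unique (one_sum t)
    have := half_ge (fun y => heat (W 0 S) t x y - 1 / (Fintype.card Γ : ℝ))
      (by rw [sum_sub_distrib, h4, unif, sub_self]) (· ∈ A)
    rw [filter_mem_eq_inter, univ_inter, sum_sub_distrib] at this
    simp only [dist, gw_cay, stat_eq]
    linarith
  · have hw : 0 ≤ Real.exp (-t) * t ^ k / k.factorial := by positivity
    rw [← mul_sum, mul_div_assoc _ (2 ^ k), ← mul_sub]
    gcongr
    by_cases hk : k ≤ T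
    · have := hA' 0 le_rfl zero_le_one k hk
      rw [sub_zero] at this
      have : (0 : ℝ) ≤ 2 ^ k / 2 ^ T := by positivity
      linarith
    · have a1 : (1 - 1 / (9 * L : ℝ)) ^ k ≤ 1 := pow_le_one₀ (by linarith) (by linarith)
      have a2 : (1 : ℝ) ≤ 2 ^ k / 2 ^ T := by
        rw [le_div_iff₀ (by positivity), one_mul]; gcongr
        · norm_num
        · omega
      have a3 : 0 ≤ ∑ y ∈ A, (W 0 S ^ k) x y := sum_nonneg fun y _ => P_nonneg k x y
      linarith

lemma lo' (h : Good L (40 * L) S) (hL : 2 ≤ L) {t : ℝ} (ht : 0 ≤ t) (ht' : t ≤ 18.15 * L) (x : Γ) :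
    Real.exp (-(1 / (9 * L) * t)) - 2 / 100 ≤ dist (cay h) x t := by
  have hL' : (2 : ℝ) ≤ L := by exact_mod_cast hL
  have h1 := lo h hL ht x
  have h2 : Real.exp t / 2 ^ (40 * L) ≤ 1 / 100 := by
    have e : (2 : ℝ) ^ (40 * L) = Real.exp ((40 * L : ℕ) * Real.log 2) := by
      rw [Real.exp_nat_mul, Real.exp_log (by norm_num)]
    rw [e, ← Real.exp_sub]
    have := Real.log_two_gt_d9
    have h3 : t - (40 * L : ℕ) * Real.log 2 ≤ -18 := by push_cast; nlinarith
    refine (Real.exp_le_exp.2 h3).trans ?_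
    rw [Real.exp_neg, one_div]
    refine inv_anti₀ (by norm_num) ?_
    have := Real.quadratic_le_exp_of_nonneg (x := 18) (by norm_num)
    linarith
  linarith

lemma tau_bd (h : Good L (40 * L) S) (hL : 2 ≤ L) (x : Γ) :
    6 * L ≤ tau (cay h) x ∧ tau (cay h) x ≤ 16.5 * L := by
  have hL' : (2 : ℝ) ≤ L := by exact_mod_cast hL
  have m : (16.5 * L : ℝ) ∈ {t | 0 ≤ t ∧ dist (cay h) x t ≤ 1 / 4} := by
    refine ⟨by positivity, (up h (by positivity) x).trans ?_⟩
    have e1 : (1 / (11 * L) * (16.5 * L) : ℝ) = 3 / 2 := by field_simp; norm_num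
    have e2 : (30 : ℝ) ≤ (1 - 1 / (9 * L)) * (16.5 * L) := by
      have : (1 / (9 * L) * (16.5 * L) : ℝ) = 11 / 6 := by field_simp; norm_num
      rw [sub_mul, this]; linarith
    have a1 := Real.sum_le_exp_of_nonneg (x := 3 / 2) (by norm_num) 5
    have a2 := (Real.quadratic_le_exp_of_nonneg (x := 30) (by norm_num)).trans (Real.exp_le_exp.2 e2)
    norm_num [sum_range_succ, Nat.factorial] at a1
    rw [e1, Real.exp_neg, Real.exp_neg]
    have b1 := inv_anti₀ (by norm_num) a1
    have b2 := inv_anti₀ (by norm_num) a2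
    norm_num at b1 b2 ⊢
    linarith
  refine ⟨le_csInf ⟨_, m⟩ fun t ⟨h0, h1⟩ => ?_, csInf_le ⟨0, fun t ht => ht.1⟩ m⟩
  by_contra hc
  have h2 := lo' h hL h0 (by linarith) x
  have h3 := Real.add_one_le_exp (-(1 / (9 * L) * t))
  have h4 : (1 / (9 * L) * t : ℝ) ≤ 2 / 3 := by
    rw [one_div_mul_eq_div, div_le_iff₀ (by positivity)]; linarith
  linarith

lemma exists_median (h : Good L T S) : ∃ m, IsMedian (cay h) m := by
  classical
  have tot : ∀ p : Γ → Prop, mass (cay h) p + mass (cay h) (fun x => ¬ p x) = 1 := fun p => by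
    simp only [mass, stat_eq]
    refine Eq.trans ?_ ((sum_filter_add_sum_filter_not univ p _).trans (unif (Γ := Γ)))
    congr
  have mono : ∀ p q : Γ → Prop, (∀ x, p x → q x) → mass (cay h) p ≤ mass (cay h) q := fun p q hpq => by
    simp only [mass, stat_eq]
    exact sum_le_sum_of_subset_of_nonneg (fun x hx => by simpa using hpq x (by simpa using hx))
      fun _ _ _ => by positivity
  have z : mass (cay h) (fun _ => False) = 0 := by simp [mass]
  obtain ⟨x₀, -, hx₀⟩ := exists_max_image univ (tau (cay h)) univ_nonempty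
  obtain ⟨x₁, h1, h2⟩ := exists_min_image (univ.filter fun x => 1 / 2 ≤ mass (cay h)
    fun y => tau (cay h) y ≤ tau (cay h) x) (tau (cay h)) ⟨x₀, by
      have := tot fun y => tau (cay h) y ≤ tau (cay h) x₀
      have := mono (fun y => ¬ tau (cay h) y ≤ tau (cay h) x₀) (fun _ => False)
        fun y hy => hy (hx₀ y (mem_univ y))
      simp only [mem_filter, mem_univ, true_and]; linarith⟩
  refine ⟨_, (mem_filter.1 h1).2, ?_⟩
  have t1 := tot fun y => tau (cay h) x₁ ≤ tau (cay h) y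
  by_contra hc
  rcases (univ.filter fun y => ¬ tau (cay h) x₁ ≤ tau (cay h) y).eq_empty_or_nonempty with he | he
  · have := mono (fun y => ¬ tau (cay h) x₁ ≤ tau (cay h) y) (fun _ => False) fun y hy =>
      (filter_eq_empty_iff.1 he (mem_univ y)) hy
    linarith
  · obtain ⟨x₂, h3, h4⟩ := exists_max_image _ (tau (cay h)) he
    have := mono (fun y => ¬ tau (cay h) x₁ ≤ tau (cay h) y) (fun y => tau (cay h) y ≤ tau (cay h) x₂)
      fun y hy => h4 y (mem_filter.2 ⟨mem_univ y, hy⟩)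
    exact (mem_filter.1 h3).2 (h2 x₂ (mem_filter.2 ⟨mem_univ _, by linarith⟩))

lemma med_bd (h : Good L (40 * L) S) (hL : 2 ≤ L) {m : ℝ} (hm : IsMedian (cay h) m) :
    6 * L ≤ m ∧ m ≤ 16.5 * L := by
  have ex : ∀ p : Γ → Prop, 1 / 2 ≤ mass (cay h) p → ∃ x, p x := fun p hp => by
    by_contra hc
    push Not at hc
    simp [mass, hc] at hp
    linarith
  obtain ⟨x, hx⟩ := ex _ hm.1
  obtain ⟨y, hy⟩ := ex _ hm.2
  exact ⟨(tau_bd h hL x).1.trans hx, hy.trans (tau_bd h hL y).2⟩

lemma far (h : Good L (40 * L) S) (hL : 2 ≤ L) {m : ℝ} (hm : IsMedian (cay h) m) :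
    mass (cay h) (fun x => dist (cay h) x ((1 + 1 / 10) * m) < 1 / 10) = 0 := by
  have hL' : (2 : ℝ) ≤ L := by exact_mod_cast hL
  obtain ⟨a, b⟩ := med_bd h hL hm
  have : ∀ x, ¬ dist (cay h) x ((1 + 1 / 10) * m) < 1 / 10 := fun x hx => by
    have h2 := lo' h hL (t := (1 + 1 / 10) * m) (by linarith) (by linarith) x
    have h4 : (1 / (9 * L) * ((1 + 1 / 10) * m) : ℝ) ≤ 32 * (121 / 1920) := by
      rw [one_div_mul_eq_div, div_le_iff₀ (by positivity)]; linarith
    have h5 := Real.exp_le_exp.2 (neg_le_neg h4)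
    have h6 : (1 - 121 / 1920 : ℝ) ^ 32 ≤ Real.exp (-(121 / 1920)) ^ 32 := by
      gcongr
      linarith [Real.add_one_le_exp (-(121 / 1920 : ℝ))]
    rw [← Real.exp_nat_mul] at h6
    rw [show ((32 : ℕ) : ℝ) * -(121 / 1920) = -(32 * (121 / 1920)) by norm_num] at h6
    have h7 : (12 / 100 : ℝ) ≤ (1 - 121 / 1920) ^ 32 := by norm_num
    linarith
  simp only [mass]
  rw [filter_eq_empty_iff.2 fun x _ => this x, sum_empty]

theorem result : ∃ (V : ℕ → Type) (_ : ∀ n, Fintype (V n)) (_ : ∀ n, DecidableEq (V n))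
    (G : ∀ n, SimpleGraph (V n)),
    Tendsto (fun n => Fintype.card (V n)) atTop atTop ∧ (∀ n, (G n).Connected) ∧
    (∀ n, ∃ m, IsMedian (G n) m) ∧
    ∀ τ : ℕ → ℝ, (∀ n, IsMedian (G n) (τ n)) →
      Tendsto (fun n => τ n / trel (gw 0 (G n))) atTop atTop ∧
      ∃ ε ∈ Set.Ioo (0 : ℝ) 1,
        ¬ Tendsto (fun n => mass (G n) fun x => dist (G n) x ((1 + ε) * τ n) < ε) atTop (𝓝 1) := by
  choose G i1 i2 i3 S h using fun n => pack (n + 2) (40 * (n + 2)) (by omega)
  refine ⟨G, i2, i3, fun n => cay (h n), ?_, fun n => cay_conn (h n), fun n => exists_median (h n),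
    fun τ hτ => ⟨to_top fun n => ?_, 1 / 10, by norm_num, fun hc => ?_⟩⟩
  · exact tendsto_atTop_mono (fun n => (h n).card) (tendsto_add_atTop_nat 2)
  · have a := (med_bd (h n) (by omega) (hτ n)).1
    have b := (h n).lam le_rfl zero_le_one
    rw [gw_cay, trel, div_div_eq_mul_div, div_one]
    have : (0 : ℝ) ≤ ((n + 2 : ℕ) : ℝ) := Nat.cast_nonneg _
    nlinarith
  · simp only [fun n => far (h n) (by omega) (hτ n)] at hc
    exact zero_ne_one (tendsto_nhds_unique tendsto_const_nhds hc)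

end Pool.Agent.Results.MP_ec2323_pr.NoCutoff
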